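import Mathlib

/-!
A finite 2-transitive permutation group acts by automorphisms on some quasigroup if and only if
the stabiliser of two points fixes a third point.
-/

namespace Pool.Agent.Results.MP_a0202c_co.TwoTransitive

/-- `op` is a quasigroup operation. -/
def IsQuasigroup {Q : Type} (op : Q → Q → Q) : Prop :=
  (∀ a b, ∃! x, op a x = b) ∧ (∀ a b, ∃! y, op y a = b)

/-- Some quasigroup operation on `Ω` has every element of `G` as an automorphism. -/
def Realisable {Ω : Type} (G : Subgroup (Equiv.Perm Ω)) : Prop :=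
  ∃ op : Ω → Ω → Ω, IsQuasigroup op ∧ ∀ g ∈ G, ∀ x y, g (op x y) = op (g x) (g y)

/-- `G` is transitive on ordered pairs of distinct points. -/
def TwoTransitive {Ω : Type} (G : Subgroup (Equiv.Perm Ω)) : Prop :=
  ∀ a b c d : Ω, a ≠ b → c ≠ d → ∃ g ∈ G, g a = c ∧ g b = d

theorem stab_eq {Ω : Type} [Finite Ω] {G : Subgroup (Equiv.Perm Ω)} (h2 : TwoTransitive G)
    {a b c d : Ω} (hab : a ≠ b) (hcd : c ≠ d)
    (hsub : ∀ g ∈ G, g a = a → g b = b → g c = c ∧ g d = d) :
    ∀ g ∈ G, g c = c → g d = d → g a = a ∧ g b = b := by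
  obtain ⟨h, hG, ha, hb⟩ := h2 a b c d hab hcd
  have key : {g : Equiv.Perm Ω | g ∈ G ∧ g a = a ∧ g b = b} =
      {g : Equiv.Perm Ω | g ∈ G ∧ g c = c ∧ g d = d} := by
    refine Set.eq_of_subset_of_ncard_le ?_ ?_ (Set.toFinite _)
    · rintro g ⟨h1, h3, h4⟩
      exact ⟨h1, hsub g h1 h3 h4⟩
    · refine Set.ncard_le_ncard_of_injOn (fun g => h⁻¹ * g * h) ?_ ?_ (Set.toFinite _)
      · rintro g ⟨h1, h3, h4⟩
        refine ⟨G.mul_mem (G.mul_mem (G.inv_mem hG) h1) hG, ?_, ?_⟩
        · simp only [Equiv.Perm.mul_apply]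
          rw [ha, h3, ← ha]; simp
        · simp only [Equiv.Perm.mul_apply]
          rw [hb, h4, ← hb]; simp
      · intro g _ g' _ hgg
        exact mul_left_cancel (mul_right_cancel hgg)
  intro g h1 h3 h4
  have : g ∈ {g : Equiv.Perm Ω | g ∈ G ∧ g a = a ∧ g b = b} := by
    rw [key]; exact ⟨h1, h3, h4⟩
  exact this.2

theorem result {Ω : Type} [Finite Ω] (G : Subgroup (Equiv.Perm Ω)) (h2 : TwoTransitive G)
    (a b : Ω) (hab : a ≠ b) :
    Realisable G ↔ ∃ z, z ≠ a ∧ z ≠ b ∧ ∀ g ∈ G, g a = a → g b = b → g z = z := by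
  constructor
  · rintro ⟨op, ⟨hl, hr⟩, haut⟩
    have lc : ∀ x y y', op x y = op x y' → y = y' := fun x y y' h => (hl x (op x y')).unique h rfl
    have rc : ∀ x x' y, op x y = op x' y → x = x' := fun x x' y h => (hr y (op x' y)).unique h rfl
    refine ⟨op a b, ?_, ?_, ?_⟩
    · intro h
      by_cases hw : op a a = a
      · exact hab (lc a a b (hw.trans h.symm))
      · obtain ⟨g, hg, g1, g2⟩ := h2 a b (op a a) a hab hw
        have := haut g hg a b
        rw [h, g1, g2] at this
        exact hw (rc _ _ _ this).symm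
    · intro h
      by_cases hw : op b b = b
      · exact hab (rc a b b (h.trans hw.symm))
      · obtain ⟨g, hg, g1, g2⟩ := h2 a b b (op b b) hab (fun hh => hw hh.symm)
        have := haut g hg a b
        rw [h, g1, g2] at this
        exact hw (lc _ _ _ this).symm
    · intro g hg g1 g2
      rw [haut g hg, g1, g2]
  · rintro ⟨z, hza, hzb, hz⟩
    classical
    have e1 := stab_eq h2 hab hza.symm (fun g hg g1 g2 => ⟨g1, hz g hg g1 g2⟩)
    have e2 := stab_eq h2 hab hzb (fun g hg g1 g2 => ⟨hz g hg g1 g2, g2⟩)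
    have inv : ∀ (g g' : Equiv.Perm Ω) (x : Ω), (g'⁻¹ * g) x = x ↔ g x = g' x := by
      intro g g' x
      rw [Equiv.Perm.mul_apply, Equiv.Perm.inv_eq_iff_eq]
    let op : Ω → Ω → Ω := fun x y =>
      if h : x = y then x else (Classical.choose (h2 a b x y hab h)) z
    have od : ∀ x, op x x = x := fun x => dif_pos rfl
    have oo : ∀ g ∈ G, op (g a) (g b) = g z := by
      intro g hg
      have hne : g a ≠ g b := fun hh => hab (g.injective hh)
      obtain ⟨s1, s2, s3⟩ := Classical.choose_spec (h2 a b _ _ hab hne)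
      have : op (g a) (g b) = (Classical.choose (h2 a b _ _ hab hne)) z := dif_neg hne
      rw [this, ← inv]
      exact hz _ (G.mul_mem (G.inv_mem hg) s1) ((inv _ _ _).mpr s2) ((inv _ _ _).mpr s3)
    have li : ∀ x, Function.Injective (fun y => op x y) := by
      intro x y y' h
      have h' : op x y = op x y' := h
      by_cases hy : x = y <;> by_cases hy' : x = y'
      · rw [← hy, ← hy']
      · obtain ⟨g, hg, rfl, rfl⟩ := h2 a b x y' hab hy'
        rw [← hy, od, oo g hg] at h'
        exact absurd (g.injective h').symm hza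
      · obtain ⟨g, hg, rfl, rfl⟩ := h2 a b x y hab hy
        rw [← hy', od, oo g hg] at h'
        exact absurd (g.injective h') hza
      · obtain ⟨g, hg, g1, g2⟩ := h2 a b x y hab hy
        obtain ⟨g', hg', g1', g2'⟩ := h2 a b x y' hab hy'
        have o1 := oo g hg
        have o2 := oo g' hg'
        rw [g1, g2] at o1
        rw [g1', g2'] at o2
        have := (e1 _ (G.mul_mem (G.inv_mem hg') hg) ((inv _ _ _).mpr (g1.trans g1'.symm))
          ((inv _ _ _).mpr (o1.symm.trans (h'.trans o2)))).2
        rw [← g2, ← g2']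
        exact (inv _ _ _).mp this
    have ri : ∀ y, Function.Injective (fun x => op x y) := by
      intro y x x' h
      have h' : op x y = op x' y := h
      by_cases hx : x = y <;> by_cases hx' : x' = y
      · rw [hx, hx']
      · obtain ⟨g, hg, rfl, rfl⟩ := h2 a b x' y hab hx'
        rw [hx, od, oo g hg] at h'
        exact absurd (g.injective h').symm hzb
      · obtain ⟨g, hg, rfl, rfl⟩ := h2 a b x y hab hx
        rw [hx', od, oo g hg] at h'
        exact absurd (g.injective h') hzb
      · obtain ⟨g, hg, g1, g2⟩ := h2 a b x y hab hx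
        obtain ⟨g', hg', g1', g2'⟩ := h2 a b x' y hab hx'
        have o1 := oo g hg
        have o2 := oo g' hg'
        rw [g1, g2] at o1
        rw [g1', g2'] at o2
        have := (e2 _ (G.mul_mem (G.inv_mem hg') hg)
          ((inv _ _ _).mpr (o1.symm.trans (h'.trans o2)))
          ((inv _ _ _).mpr (g2.trans g2'.symm))).1
        rw [← g1, ← g1']
        exact (inv _ _ _).mp this
    refine ⟨op, ⟨fun x c => ?_, fun y c => ?_⟩, ?_⟩
    · exact (Finite.injective_iff_bijective.mp (li x)).existsUnique c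
    · exact (Finite.injective_iff_bijective.mp (ri y)).existsUnique c
    · intro k hk x y
      by_cases hxy : x = y
      · rw [hxy, od, od]
      · obtain ⟨g, hg, rfl, rfl⟩ := h2 a b x y hab hxy
        rw [oo g hg]
        exact (oo (k * g) (G.mul_mem hk hg)).symm

end Pool.Agent.Results.MP_a0202c_co.TwoTransitive
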